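import Pool.Agent.H343R2.ZeroSide

/-!
# A lower bound for Montgomery's function `F(α, T)` beyond `α = 1`

Montgomery's pair correlation conjecture is essentially the statement `F(α, T) = 1 + o(1)` for
`α ≥ 1`.  We prove that `F(α, T) ≥ 3/2 - α - ε` for `1 ≤ α ≤ 3/2` and `T ≥ T₀(ε)`, uniformly in `α`,
under the Riemann hypothesis alone, in an unconditional form.
-/

open Complex

namespace Pool.Agent.Results.MP_103a5c_nt.BeyondOne

/-- the nontrivial zeros of `ζ` with ordinate in `(0, T]` -/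
def zeros (T : ℝ) : Set ℂ :=
  {s : ℂ | 0 < s.re ∧ s.re < 1 ∧ 0 < s.im ∧ s.im ≤ T ∧ riemannZeta s = 0}

/-- the multiplicity of `s` as a zero of `ζ` -/
noncomputable def mult (s : ℂ) : ℕ := analyticOrderNatAt riemannZeta s

/-- Montgomery's function `F(α, T)`:
`((T/2π) log T)⁻¹ ∑_γ ∑_γ' T ^ (iα(γ - γ')) w(γ - γ')`, `w(u) = 4 / (4 + u²)`, the zeros being counted
with multiplicity -/
noncomputable def F (α T : ℝ) : ℂ :=
  ((T / (2 * Real.pi) * Real.log T : ℝ) : ℂ)⁻¹ *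
    ∑ᶠ s ∈ zeros T, ∑ᶠ s' ∈ zeros T, (mult s : ℂ) * (mult s' : ℂ) *
      ((T : ℂ) ^ (I * α * ((s.im - s'.im : ℝ) : ℂ)) * (4 / (4 + ((s.im - s'.im : ℝ) : ℂ) ^ 2)))

/-- The unconditional form of Montgomery's function: `i(γ - γ')` is replaced by
`ρ + conj ρ' - 1 = (β + β' - 1) + i(γ - γ')`. -/
noncomputable def G (α T : ℝ) : ℂ :=
  ((T / (2 * Real.pi) * Real.log T : ℝ) : ℂ)⁻¹ *
    ∑ᶠ s ∈ zeros T, ∑ᶠ s' ∈ zeros T, (mult s : ℂ) * (mult s' : ℂ) *
      ((T : ℂ) ^ (α * (s + (starRingEnd ℂ) s' - 1)) *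
        (4 / (4 - (s + (starRingEnd ℂ) s' - 1) ^ 2)))

lemma zeros_finite (T : ℝ) : (zeros T).Finite := H370.zeta_zeros_finite T

lemma Z0_eq (T : ℝ) : H343.ZSide.Z0 T = (zeros_finite T).toFinset := rfl

lemma G_eq (α T : ℝ) (hT : 0 < T) :
    G α T = ((T / (2 * Real.pi) * Real.log T : ℝ) : ℂ)⁻¹ *
      H343.PPair H343.kW (α * Real.log T) (H343.ZSide.Z0 T) H343.ZSide.mz := by
  classical
  unfold G H343.PPair
  rw [finsum_mem_eq_finite_toFinset_sum _ (zeros_finite T), Z0_eq]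
  congr 1
  apply Finset.sum_congr rfl
  intro s _
  rw [finsum_mem_eq_finite_toFinset_sum _ (zeros_finite T)]
  apply Finset.sum_congr rfl
  intro s' _
  have hT0 : (T : ℂ) ≠ 0 := by exact_mod_cast hT.ne'
  rw [Complex.cpow_def_of_ne_zero hT0, ← Complex.ofReal_log hT.le]
  unfold H343.kW H343.ZSide.mz H370.mult mult
  push_cast
  congr 2
  congr 1
  ring

lemma re_half (hRH : RiemannHypothesis) {T : ℝ} {s : ℂ} (hs : s ∈ zeros T) : s.re = 1 / 2 := by
  obtain ⟨h1, h2, h3, h4, h5⟩ := hs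
  refine hRH s h5 ?_ ?_
  · rintro ⟨n, hn⟩
    rw [hn] at h3
    simp at h3
  · intro h
    rw [h] at h3
    simp at h3

lemma G_eq_F (hRH : RiemannHypothesis) (α T : ℝ) : G α T = F α T := by
  classical
  unfold G F
  rw [finsum_mem_eq_finite_toFinset_sum _ (zeros_finite T),
    finsum_mem_eq_finite_toFinset_sum _ (zeros_finite T)]
  congr 1
  apply Finset.sum_congr rfl
  intro s hs
  rw [finsum_mem_eq_finite_toFinset_sum _ (zeros_finite T),
    finsum_mem_eq_finite_toFinset_sum _ (zeros_finite T)]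
  apply Finset.sum_congr rfl
  intro s' hs'
  have h1 : s.re = 1 / 2 := re_half hRH ((zeros_finite T).mem_toFinset.1 hs)
  have h2 : s'.re = 1 / 2 := re_half hRH ((zeros_finite T).mem_toFinset.1 hs')
  have h3 : s + (starRingEnd ℂ) s' - 1 = I * ((s.im - s'.im : ℝ) : ℂ) := by
    apply Complex.ext
    · simp [h1, h2]
      norm_num
    · simp
      ring
  rw [h3]
  have h4 : (4 : ℂ) - (I * ((s.im - s'.im : ℝ) : ℂ)) ^ 2 = 4 + ((s.im - s'.im : ℝ) : ℂ) ^ 2 := by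
    rw [mul_pow, Complex.I_sq]
    ring
  rw [h4, show (α : ℂ) * (I * ((s.im - s'.im : ℝ) : ℂ)) = I * α * ((s.im - s'.im : ℝ) : ℂ) by ring]

/-- **A lower bound for Montgomery's function beyond `1`.**  Unconditionally `G(α, T)` is real and
`G(α, T) ≥ 3/2 - α - ε`, uniformly for `1 ≤ α ≤ 3/2`, `T ≥ T₀(ε)`; under the Riemann hypothesis
`G(α, T)` is Montgomery's `F(α, T)`. -/
theorem result :
    (∀ ε : ℝ, 0 < ε → ∃ T₀ : ℝ, ∀ T : ℝ, T₀ ≤ T → ∀ α : ℝ, 1 ≤ α → α ≤ 3 / 2 →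
      (G α T).im = 0 ∧ 3 / 2 - α - ε ≤ (G α T).re) ∧
    (RiemannHypothesis → ∀ α T : ℝ, G α T = F α T) := by
  have key : ∀ ε : ℝ, 0 < ε → ∃ T₀ : ℝ, ∀ T : ℝ, T₀ ≤ T → ∀ α : ℝ, 1 ≤ α → α ≤ 3 / 2 →
      (G α T).im = 0 ∧ 3 / 2 - α - ε ≤ (G α T).re := by
    intro ε hε
    obtain ⟨T0, hT0, h⟩ := H343.pair_lower ε hε
    refine ⟨max T0 2, fun T hT α hα1 hα2 => ?_⟩
    have hTa : T0 ≤ T := (le_max_left _ _).trans hT
    have hT2 : 2 ≤ T := (le_max_right _ _).trans hT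
    have hTpos : 0 < T := by linarith
    have hlog : 0 < Real.log T := Real.log_pos (by linarith)
    have hX : 0 < T / (2 * Real.pi) * Real.log T := by
      have := Real.pi_pos
      positivity
    have hZ : ∀ s ∈ H343.ZSide.Z0 T, 0 < s.re ∧ s.re < 1 := by
      intro s hs
      rw [Z0_eq, Set.Finite.mem_toFinset] at hs
      exact ⟨hs.1, hs.2.1⟩
    have him := (H343.pair_W 1 (α * Real.log T) 0 one_pos le_rfl (H343.ZSide.Z0 T)
      H343.ZSide.mz hZ).1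
    have hre := h T α hTa hα1 hα2
    rw [G_eq α T hTpos, ← Complex.ofReal_inv]
    constructor
    · rw [Complex.im_ofReal_mul, him, mul_zero]
    · rw [Complex.re_ofReal_mul, inv_mul_eq_div, le_div_iff₀ hX]
      exact hre
  exact ⟨key, G_eq_F⟩

end Pool.Agent.Results.MP_103a5c_nt.BeyondOne
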