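import Pool.Agent.H321R3.PC.Val

/-!
# A lower bound for the number of close pairs of zeros, under the Riemann hypothesis

For `0 < β ≤ 1` and `T → ∞` the number `N(T; -β, β)` of pairs of ordinates in `(0, T]` at distance
at most `β` times the mean spacing is at least `(V(β) - ε) (T/2π) log T`, with an explicit `V(β)`;
`V(β) > 1` for `β = 0.5785`.
-/

open Complex

namespace Pool.Agent.Results.MP_103a5c_nt.PairCountLower

/-- the nontrivial zeros of `ζ` with ordinate in `(0, T]` -/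
def zeros (T : ℝ) : Set ℂ :=
  {s : ℂ | 0 < s.re ∧ s.re < 1 ∧ 0 < s.im ∧ s.im ≤ T ∧ riemannZeta s = 0}

/-- the multiplicity of `s` as a zero of `ζ` -/
noncomputable def mult (s : ℂ) : ℕ := analyticOrderNatAt riemannZeta s

/-- `N(T; α, β)`: the number of ordered pairs of zeros (counted with multiplicity, the diagonal
included) with ordinates in `(0, T]` whose difference lies in `[2πα / log T, 2πβ / log T]` -/
noncomputable def N (T α β : ℝ) : ℕ :=
  ∑ᶠ s ∈ zeros T, ∑ᶠ s' ∈ {s' : ℂ | s' ∈ zeros T ∧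
    2 * Real.pi * α / Real.log T ≤ s.im - s'.im ∧ s.im - s'.im ≤ 2 * Real.pi * β / Real.log T},
      mult s * mult s'

/-- the Fourier transform of Selberg's minorant `(sin πx / πx)² / (1 - x²)` of the indicator
function of `[-1, 1]` -/
noncomputable def sel (y : ℝ) : ℝ :=
  if |y| ≤ 1 then 1 - |y| + Real.sin (2 * Real.pi * |y|) / (2 * Real.pi) else 0

/-- the lower bound function -/
noncomputable def V (β : ℝ) : ℝ :=
  β * (1 + 2 * (∫ α in (0 : ℝ)..1, α * sel (β * α)) +
    2 * ∫ α in (1 : ℝ)..(3 / 2), (3 / 2 - α) * sel (β * α))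

lemma zeros_finite (T : ℝ) : (zeros T).Finite := H370.zeta_zeros_finite T

lemma N_eq (T β : ℝ) :
    (N T (-β) β : ℝ) = H332B.N2 T (2 * Real.pi * β / Real.log T) := by
  classical
  unfold N H332B.N2 H343.ZSide.Z0
  rw [finsum_mem_eq_finite_toFinset_sum _ (zeros_finite T)]
  push_cast
  apply Finset.sum_congr rfl
  intro s _
  have hfin : {s' : ℂ | s' ∈ zeros T ∧
      2 * Real.pi * (-β) / Real.log T ≤ s.im - s'.im ∧
      s.im - s'.im ≤ 2 * Real.pi * β / Real.log T}.Finite :=
    (zeros_finite T).subset fun _ h => h.1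
  rw [finsum_mem_eq_finite_toFinset_sum _ hfin]
  push_cast
  rw [← Finset.sum_filter]
  apply Finset.sum_congr
  · ext s'
    rw [Set.Finite.mem_toFinset, Finset.mem_filter, Set.Finite.mem_toFinset, abs_le]
    have e1 : 2 * Real.pi * (-β) / Real.log T = -(2 * Real.pi * β / Real.log T) := by
      ring
    rw [Set.mem_ofPred_eq, e1]
    rfl
  · intro s' _
    rfl

/-- **Close pairs of zeros under the Riemann hypothesis.**  For `0 < β ≤ 1`,
`N(T; -β, β) ≥ (V(β) - ε) (T/2π) log T` for all large `T`; and `V(0.5785) > 1`. -/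
theorem result (hRH : RiemannHypothesis) :
    (∀ β ε : ℝ, 0 < β → β ≤ 1 → 0 < ε → ∃ T₀ : ℝ, ∀ T : ℝ, T₀ ≤ T →
      (V β - ε) * (T / (2 * Real.pi) * Real.log T) ≤ (N T (-β) β : ℝ)) ∧
    1 < V (5785 / 10000) := by
  have hV : ∀ β : ℝ, V β = H321PC.VV1 β := fun _ => rfl
  constructor
  · intro β ε hβ hβ1 hε
    obtain ⟨T0, -, h⟩ := H321PC.main hRH β ε hβ hβ1 hε
    refine ⟨T0, fun T hT => ?_⟩
    rw [N_eq, hV, H321PC.VV1_eq hβ hβ1]
    exact h T hT
  · rw [hV, show (5785 / 10000 : ℝ) = 1157 / 2000 by norm_num]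
    exact H321PC.VV1_gt

end Pool.Agent.Results.MP_103a5c_nt.PairCountLower
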